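import Pool.Agent.Helper9.UP.StC

/-!
# Project UP (MP_d466de), module FA: assembly of case A
-/

set_option autoImplicit false

noncomputable section

namespace Pool.Agent.Helper90.UP

open Finset Polynomial
open Pool.Agent.Helper9.UP
open Pool.Agent.Helper9.TW (gm)

/-! ### boxes -/

theorem mem_bx_FA (X ω : ℝ) (i p : ℕ) : p ∈ bx X ω i ↔
    (p : ℝ) < X ^ (((i : ℝ) + 1) * ω) ∧ p.Prime ∧ X ^ ((i : ℝ) * ω) ≤ (p : ℝ) := by
  unfold bx
  rw [Finset.mem_filter, Finset.mem_range, Nat.lt_ceil]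

theorem exists_bx_FA (N p : ℕ) (ω : ℝ) (hN : 1 < N) (hω : 0 < ω) (hp : p.Prime) :
    ∃ i : ℕ, p ∈ bx N ω i := by
  have hN1 : (1 : ℝ) < N := by exact_mod_cast hN
  have hl : 0 < Real.log N := Real.log_pos hN1
  have hp1 : (1 : ℝ) < p := by exact_mod_cast hp.one_lt
  have hlp : 0 ≤ Real.log p := (Real.log_pos hp1).le
  refine ⟨⌊Real.log p / (ω * Real.log N)⌋₊, ?_⟩
  rw [mem_bx_FA]
  have h1 := Nat.floor_le (div_nonneg hlp (mul_pos hω hl).le)
  have h2 := Nat.lt_floor_add_one (Real.log p / (ω * Real.log N))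
  set i := ⌊Real.log p / (ω * Real.log N)⌋₊
  rw [le_div_iff₀ (mul_pos hω hl)] at h1
  rw [div_lt_iff₀ (mul_pos hω hl)] at h2
  have hp0 : (0 : ℝ) < p := by linarith
  have hN0 : (0 : ℝ) < N := by linarith
  refine ⟨?_, hp, ?_⟩
  · rw [← Real.log_lt_log_iff hp0 (Real.rpow_pos_of_pos hN0 _), Real.log_rpow hN0]
    linarith
  · rw [← Real.log_le_log_iff (Real.rpow_pos_of_pos hN0 _) hp0, Real.log_rpow hN0]
    linarith

theorem le_of_bx_FA (N p i a : ℕ) (ω : ℝ) (hN : 1 < N) (hω : 0 < ω) (hp : p ∈ bx N ω i)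
    (h : (N : ℝ) ^ ((a : ℝ) * ω) ≤ (p : ℝ)) : a ≤ i := by
  rw [mem_bx_FA] at hp
  have hN1 : (1 : ℝ) < N := by exact_mod_cast hN
  have h1 : (N : ℝ) ^ ((a : ℝ) * ω) < (N : ℝ) ^ (((i : ℝ) + 1) * ω) := lt_of_le_of_lt h hp.1
  rw [Real.rpow_lt_rpow_left_iff hN1] at h1
  have h2 : (a : ℝ) < i + 1 := lt_of_mul_lt_mul_right h1 hω.le
  have h3 : a < i + 1 := by exact_mod_cast h2
  omega

theorem lt_of_bx_FA (N p i b : ℕ) (ω : ℝ) (hN : 1 < N) (hω : 0 < ω) (hp : p ∈ bx N ω i)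
    (h : (p : ℝ) < (N : ℝ) ^ ((b : ℝ) * ω)) : i < b := by
  rw [mem_bx_FA] at hp
  have hN1 : (1 : ℝ) < N := by exact_mod_cast hN
  have h1 : (N : ℝ) ^ ((i : ℝ) * ω) < (N : ℝ) ^ ((b : ℝ) * ω) := lt_of_le_of_lt hp.2.2 h
  rw [Real.rpow_lt_rpow_left_iff hN1] at h1
  have h2 : (i : ℝ) < b := lt_of_mul_lt_mul_right h1 hω.le
  exact_mod_cast h2

/-! ### the prime factors of a value without small factors -/

theorem big_FA (f : ℤ[X]) (N w j0 M n p : ℕ) (ω : ℝ) (hN : 1 < N) (hω : 0 < ω)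
    (hw : w = ⌈(N : ℝ) ^ ((j0 : ℝ) * ω)⌉₊ - 1) (hQ : ∀ p ∈ Qf f w, ¬ p ∣ n)
    (hd : ∀ p : ℕ, p.Prime → p ∣ n → 2 * f.natDegree < p)
    (hi : ind N ω j0 M n = 1) (hp : p.Prime) (hpn : p ∣ n) :
    w < p ∧ (N : ℝ) ^ ((M : ℝ) * ω) ≤ (p : ℝ) := by
  have h1 : w < p := by
    by_contra h
    push Not at h
    refine hQ p ?_ hpn
    unfold Qf
    rw [Finset.mem_filter, Finset.mem_Ioc]
    exact ⟨⟨hd p hp hpn, h⟩, hp⟩
  refine ⟨h1, ?_⟩
  have h2 : (N : ℝ) ^ ((j0 : ℝ) * ω) ≤ (p : ℝ) := by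
    have h3 : ⌈(N : ℝ) ^ ((j0 : ℝ) * ω)⌉₊ ≤ p := by omega
    exact Nat.ceil_le.mp h3
  by_contra h
  push Not at h
  obtain ⟨i, hi'⟩ := exists_bx_FA N p ω hN hω hp
  have a1 := le_of_bx_FA N p i j0 ω hN hω hi' h2
  have a2 := lt_of_bx_FA N p i M ω hN hω hi' h
  unfold ind at hi
  rw [if_pos] at hi
  · norm_num at hi
  · refine ⟨p, ?_, hpn⟩
    unfold Pr
    rw [Finset.mem_biUnion]
    exact ⟨i, Finset.mem_Ico.mpr ⟨a1, a2⟩, hi'⟩

theorem sum_FA (f : ℤ[X]) (N n M M' : ℕ) (ω x : ℝ) (hN : 1 < N) (hω : 0 < ω)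
    (hx : x = (M' : ℝ) * ω) (hx1 : x ≤ 1) (hv : (N : ℝ) ^ vd f ≤ N)
    (hbig : ∀ p : ℕ, p.Prime → p ∣ n → (N : ℝ) ^ ((M : ℝ) * ω) ≤ (p : ℝ)) :
    ∑ p ∈ n.primeFactors.filter (fun p : ℕ => (p : ℝ) ≤ (N : ℝ) ^ vd f),
      (1 - Real.log p / Real.log N) ≤
    ∑ j ∈ Ico M M', (1 - (j : ℝ) * ω) * (ej N ω j n : ℝ) +
      ∑ p ∈ (Nr f N x).filter (fun p : ℕ => p ∣ n), (1 - Real.log p / Real.log N) := by
  classical
  have hN1 : (1 : ℝ) < N := by exact_mod_cast hN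
  have hN0 : (0 : ℝ) < N := by linarith
  have hl : 0 < Real.log N := Real.log_pos hN1
  have hnon : ∀ p : ℕ, p.Prime → (p : ℝ) ≤ (N : ℝ) ^ vd f → 0 ≤ 1 - Real.log p / Real.log N := by
    intro p hp hpv
    rw [sub_nonneg, div_le_one hl]
    apply Real.log_le_log
    · exact_mod_cast hp.pos
    · exact hpv.trans hv
  have hjM : ∀ j ∈ Ico M M', 0 ≤ 1 - (j : ℝ) * ω := by
    intro j hj
    rw [Finset.mem_Ico] at hj
    have : (j : ℝ) ≤ M' := by exact_mod_cast hj.2.le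
    have h2 : (j : ℝ) * ω ≤ M' * ω := mul_le_mul_of_nonneg_right this hω.le
    linarith
  set A := n.primeFactors.filter (fun p : ℕ => (p : ℝ) ≤ (N : ℝ) ^ vd f) with hA
  rw [← Finset.sum_filter_add_sum_filter_not A (fun p : ℕ => (p : ℝ) < (N : ℝ) ^ x)]
  apply add_le_add
  · -- the primes of the boxes
    calc ∑ p ∈ A.filter (fun p : ℕ => (p : ℝ) < (N : ℝ) ^ x), (1 - Real.log p / Real.log N)
        ≤ ∑ p ∈ A.filter (fun p : ℕ => (p : ℝ) < (N : ℝ) ^ x), ∑ j ∈ Ico M M',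
            (if p ∈ bx N ω j then 1 - (j : ℝ) * ω else 0) := by
          apply Finset.sum_le_sum
          intro p hp
          rw [Finset.mem_filter, hA, Finset.mem_filter, Nat.mem_primeFactors] at hp
          obtain ⟨⟨⟨hpp, hpn, -⟩, hpv⟩, hpx⟩ := hp
          obtain ⟨i, hi⟩ := exists_bx_FA N p ω hN hω hpp
          have a1 := le_of_bx_FA N p i M ω hN hω hi (hbig p hpp hpn)
          have a2 := lt_of_bx_FA N p i M' ω hN hω hi (by rw [← hx]; exact hpx)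
          have hiI : i ∈ Ico M M' := Finset.mem_Ico.mpr ⟨a1, a2⟩
          have hs : (if p ∈ bx N ω i then 1 - (i : ℝ) * ω else 0) ≤
              ∑ j ∈ Ico M M', (if p ∈ bx N ω j then 1 - (j : ℝ) * ω else 0) := by
            apply Finset.single_le_sum (f := fun j : ℕ => if p ∈ bx N ω j then 1 - (j : ℝ) * ω else 0)
              _ hiI
            intro j hj
            split_ifs
            · exact hjM j hj
            · exact le_refl _
          refine le_trans ?_ hs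
          rw [if_pos hi]
          rw [mem_bx_FA] at hi
          have hp0 : (0 : ℝ) < p := by exact_mod_cast hpp.pos
          have h3 : (i : ℝ) * ω * Real.log N ≤ Real.log p := by
            rw [← Real.log_rpow hN0]
            exact Real.log_le_log (Real.rpow_pos_of_pos hN0 _) hi.2.2
          have h4 : (i : ℝ) * ω ≤ Real.log p / Real.log N := by
            rw [le_div_iff₀ hl]
            exact h3
          linarith
      _ = ∑ j ∈ Ico M M', ∑ p ∈ A.filter (fun p : ℕ => (p : ℝ) < (N : ℝ) ^ x),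
            (if p ∈ bx N ω j then 1 - (j : ℝ) * ω else 0) := Finset.sum_comm
      _ ≤ ∑ j ∈ Ico M M', (1 - (j : ℝ) * ω) * (ej N ω j n : ℝ) := by
          apply Finset.sum_le_sum
          intro j hj
          rw [← Finset.sum_filter, Finset.sum_const, nsmul_eq_mul, mul_comm]
          apply mul_le_mul_of_nonneg_left _ (hjM j hj)
          unfold ej
          have : ((A.filter (fun p : ℕ => (p : ℝ) < (N : ℝ) ^ x)).filter
              (fun p : ℕ => p ∈ bx N ω j)).card ≤ ((bx N ω j).filter (fun p : ℕ => p ∣ n)).card := by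
            apply Finset.card_le_card
            intro p hp
            rw [Finset.mem_filter, Finset.mem_filter, hA, Finset.mem_filter,
              Nat.mem_primeFactors] at hp
            rw [Finset.mem_filter]
            exact ⟨hp.2, hp.1.1.1.2.1⟩
          exact_mod_cast this
  · apply Finset.sum_le_sum_of_subset_of_nonneg
    · intro p hp
      rw [Finset.mem_filter, hA, Finset.mem_filter, Nat.mem_primeFactors, not_lt] at hp
      obtain ⟨⟨⟨hpp, hpn, -⟩, hpv⟩, hpx⟩ := hp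
      rw [Finset.mem_filter]
      refine ⟨?_, hpn⟩
      unfold Nr
      rw [Finset.mem_filter, Finset.mem_range]
      refine ⟨?_, hpp, hpx, hpv⟩
      have : (p : ℝ) ≤ N := hpv.trans hv
      have : p ≤ N := by exact_mod_cast this
      omega
    · intro p hp _
      rw [Finset.mem_filter] at hp
      unfold Nr at hp
      rw [Finset.mem_filter] at hp
      exact hnon p hp.1.2.1 hp.1.2.2.2

/-! ### the combinatorial step -/

open Classical in
theorem abs_FA (A P G E : Finset ℕ) (q : ℕ → Prop) (I T1 : ℕ → ℝ) (c : ℕ → ℝ)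
    (D : ℕ → ℕ → Prop) (L U : ℝ)
    (hI : ∀ m, I m = 0 ∨ I m = 1) (hT : ∀ m, 0 ≤ T1 m) (hc : ∀ p ∈ P, 0 ≤ c p)
    (h1 : L ≤ ∑ m ∈ A, (if q m then (1 : ℝ) else 0) * I m * (1 - T1 m))
    (h2 : ∑ p ∈ P, c p * ((A.filter (fun m => D p m ∧ q m ∧ I m = 1)).card : ℝ) ≤ U)
    (h3 : ∀ m ∈ A, q m → I m = 1 →
      T1 m + 7 / 10 * ∑ p ∈ P.filter (fun p => D p m), c p < 1 → m ∈ G ∪ E) :
    L - 7 / 10 * U ≤ (G.card : ℝ) + E.card := by
  have e1 : ∑ p ∈ P, c p * ((A.filter (fun m => D p m ∧ q m ∧ I m = 1)).card : ℝ) =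
      ∑ m ∈ A, (if q m then (1 : ℝ) else 0) * I m * ∑ p ∈ P.filter (fun p => D p m), c p := by
    have : ∀ p ∈ P, c p * ((A.filter (fun m => D p m ∧ q m ∧ I m = 1)).card : ℝ) =
        ∑ m ∈ A, (if D p m ∧ q m ∧ I m = 1 then c p else 0) := by
      intro p hp
      rw [← Finset.sum_filter, Finset.sum_const, nsmul_eq_mul, mul_comm]
    rw [Finset.sum_congr rfl this, Finset.sum_comm]
    apply Finset.sum_congr rfl
    intro m hm
    rw [Finset.sum_filter, Finset.mul_sum]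
    apply Finset.sum_congr rfl
    intro p hp
    by_cases a : D p m <;> by_cases b : q m <;> rcases hI m with h | h <;> simp [a, b, h]
  have e2 : L - 7 / 10 * U ≤ ∑ m ∈ A, (if q m then (1 : ℝ) else 0) * I m *
      (1 - (T1 m + 7 / 10 * ∑ p ∈ P.filter (fun p => D p m), c p)) := by
    have : ∑ m ∈ A, (if q m then (1 : ℝ) else 0) * I m *
        (1 - (T1 m + 7 / 10 * ∑ p ∈ P.filter (fun p => D p m), c p)) =
        ∑ m ∈ A, (if q m then (1 : ℝ) else 0) * I m * (1 - T1 m) -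
        7 / 10 * ∑ m ∈ A, (if q m then (1 : ℝ) else 0) * I m *
          ∑ p ∈ P.filter (fun p => D p m), c p := by
      rw [Finset.mul_sum, ← Finset.sum_sub_distrib]
      apply Finset.sum_congr rfl
      intro m hm
      ring
    rw [this, ← e1]
    linarith
  have e3 : ∑ m ∈ A, (if q m then (1 : ℝ) else 0) * I m *
      (1 - (T1 m + 7 / 10 * ∑ p ∈ P.filter (fun p => D p m), c p)) ≤ ((G ∪ E).card : ℝ) := by
    calc ∑ m ∈ A, (if q m then (1 : ℝ) else 0) * I m *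
        (1 - (T1 m + 7 / 10 * ∑ p ∈ P.filter (fun p => D p m), c p))
        ≤ ∑ m ∈ A, (if m ∈ G ∪ E then (1 : ℝ) else 0) := by
          apply Finset.sum_le_sum
          intro m hm
          have hs : 0 ≤ ∑ p ∈ P.filter (fun p => D p m), c p := by
            apply Finset.sum_nonneg
            intro p hp
            rw [Finset.mem_filter] at hp
            exact hc p hp.1
          have hr : (0 : ℝ) ≤ (if m ∈ G ∪ E then (1 : ℝ) else 0) := by
            split_ifs <;> norm_num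
          have ht := hT m
          by_cases b : q m
          · rcases hI m with h | h
            · rw [h, mul_zero, zero_mul]
              exact hr
            · rw [if_pos b, h, one_mul, one_mul]
              by_cases t : T1 m + 7 / 10 * ∑ p ∈ P.filter (fun p => D p m), c p < 1
              · rw [if_pos (h3 m hm b h t)]
                linarith
              · push Not at t
                linarith
          · rw [if_neg b, zero_mul, zero_mul]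
            exact hr
      _ = ((A.filter (fun m => m ∈ G ∪ E)).card : ℝ) := by
          rw [← Finset.sum_filter, Finset.sum_const, nsmul_eq_mul, mul_one]
      _ ≤ ((G ∪ E).card : ℝ) := by
          have : (A.filter (fun m => m ∈ G ∪ E)).card ≤ (G ∪ E).card := by
            apply Finset.card_le_card
            intro m hm
            rw [Finset.mem_filter] at hm
            exact hm.2
          exact_mod_cast this
  have e4 : ((G ∪ E).card : ℝ) ≤ (G.card : ℝ) + E.card := by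
    exact_mod_cast Finset.card_union_le G E
  linarith

/-! ### one value -/

theorem good_FA (hPT : StPT) (hPO : StPO) (Λ : ℝ) (f : ℤ[X]) (hA : Adm Λ f)
    (hlc : 0 < f.leadingCoeff) (m0 N w K u j0 m : ℕ) (ω : ℝ) (hK : 10 ≤ K) (hu : 1 ≤ u)
    (hω : ω = 1 / (4 * (K + 1) * u))
    (hN : Real.exp Λ + 2 ≤ (N : ℝ)) (hlN : 300 * Λ ≤ Real.log N)
    (hm0 : ∀ m : ℕ, m % PM f = m0 → ∀ p : ℕ, p.Prime → p ≤ 2 * f.natDegree →
      ¬ (p : ℤ) ∣ f.eval (m : ℤ))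
    (hw : w = ⌈(N : ℝ) ^ ((j0 : ℝ) * ω)⌉₊ - 1) (hm : m ∈ AA f m0 N)
    (hQ : ∀ p ∈ Qf f w, ¬ p ∣ val f m) (hI : ind N ω j0 (K * u) (val f m) = 1)
    (hsum : ∑ j ∈ Ico (K * u) (4 * K * u - 4 * u), 7 / 10 * (1 - (j : ℝ) * ω) *
        (ej N ω j (val f m) : ℝ) +
      7 / 10 * ∑ p ∈ (Nr f N (((K : ℝ) - 1) / (K + 1))).filter (fun p : ℕ => p ∣ val f m),
        (1 - Real.log p / Real.log N) < 1)
    (hsq : ¬ ∃ p : ℕ, p.Prime ∧ w < p ∧ p ≤ ⌊(N : ℝ) ^ vd f⌋₊ ∧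
      ((p ^ 2 : ℕ) : ℤ) ∣ f.eval (m : ℤ)) :
    m ∈ Gd f N (1 / 5) := by
  have hexp := Real.exp_pos Λ
  have hN2 : (2 : ℝ) < N := by linarith
  have hN1 : (1 : ℝ) < N := by linarith
  have hN0 : (0 : ℝ) < N := by linarith
  have hN1' : 1 < N := by exact_mod_cast hN1
  unfold AA at hm
  rw [Finset.mem_filter, Finset.mem_Ioc] at hm
  obtain ⟨⟨hm1, hm2⟩, hm3⟩ := hm
  have hmR : Real.exp Λ + 2 ≤ (m : ℝ) := by
    have : (N : ℝ) < m := by exact_mod_cast hm1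
    linarith
  obtain ⟨hv1, hv2, -⟩ := hPO Λ f hA hlc m hmR
  have hval1 : 1 < val f m := by
    have : (1 : ℤ) < ((val f m : ℕ) : ℤ) := by rw [hv2]; exact hv1
    exact_mod_cast this
  have hdvd : ∀ q : ℕ, q ∣ val f m ↔ (q : ℤ) ∣ f.eval (m : ℤ) := by
    intro q
    rw [← hv2, Int.natCast_dvd_natCast]
  have hd : ∀ p : ℕ, p.Prime → p ∣ val f m → 2 * f.natDegree < p := by
    intro p hp hpn
    by_contra h
    push Not at h
    exact hm0 m hm3 p hp h ((hdvd p).mp hpn)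
  have hKr : (10 : ℝ) ≤ K := by exact_mod_cast hK
  have hur : (1 : ℝ) ≤ u := by exact_mod_cast hu
  have hω0 : 0 < ω := by rw [hω]; positivity
  have hbig := fun (p : ℕ) (hp : p.Prime) (hpn : p ∣ val f m) =>
    big_FA f N w j0 (K * u) (val f m) p ω hN1' hω0 hw hQ hd hI hp hpn
  have hKu : ((K * u : ℕ) : ℝ) * ω = K / (4 * (K + 1)) := by
    rw [hω]
    push_cast
    field_simp
  have hc : ∀ p : ℕ, p.Prime → p ∣ val f m → (N : ℝ) ^ (1 / 5 : ℝ) < (p : ℝ) := by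
    intro p hp hpn
    refine lt_of_lt_of_le ?_ (hbig p hp hpn).2
    rw [Real.rpow_lt_rpow_left_iff hN1, hKu, div_lt_div_iff₀ (by norm_num) (by positivity)]
    linarith
  have hvd1 : vd f ≤ 1 := by
    unfold vd
    rw [div_le_one (by positivity)]
    linarith
  have hv : (N : ℝ) ^ vd f ≤ N := by
    calc (N : ℝ) ^ vd f ≤ (N : ℝ) ^ (1 : ℝ) := Real.rpow_le_rpow_of_exponent_le hN1.le hvd1
      _ = N := Real.rpow_one _
  have hsub : 4 * u ≤ 4 * K * u := by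
    have : 4 * 1 * u ≤ 4 * K * u := by gcongr; omega
    omega
  have hx : ((K : ℝ) - 1) / (K + 1) = ((4 * K * u - 4 * u : ℕ) : ℝ) * ω := by
    rw [Nat.cast_sub hsub, hω]
    push_cast
    field_simp
  have hx1 : ((K : ℝ) - 1) / (K + 1) ≤ 1 := by
    rw [div_le_one (by positivity)]
    linarith
  have hS := sum_FA f N (val f m) (K * u) (4 * K * u - 4 * u) ω (((K : ℝ) - 1) / (K + 1)) hN1' hω0
    hx hx1 hv (fun p hp hpn => (hbig p hp hpn).2)
  have hT : ∑ j ∈ Ico (K * u) (4 * K * u - 4 * u), 7 / 10 * (1 - (j : ℝ) * ω) *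
        (ej N ω j (val f m) : ℝ) = 7 / 10 * ∑ j ∈ Ico (K * u) (4 * K * u - 4 * u),
        (1 - (j : ℝ) * ω) * (ej N ω j (val f m) : ℝ) := by
    rw [Finset.mul_sum]
    apply Finset.sum_congr rfl
    intro j hj
    ring
  rw [hT] at hsum
  have hP := hPT Λ f N m hA hlc hN hlN hm1 hm2 (by
    intro p hp hpv hp2
    apply hsq
    have hpn : p ∣ val f m := dvd_trans (dvd_pow_self p (by norm_num)) hp2
    refine ⟨p, hp, (hbig p hp hpn).1, Nat.le_floor hpv, ?_⟩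
    exact (hdvd (p ^ 2)).mp hp2) (by linarith)
  unfold Gd
  simp only [Finset.mem_filter, Finset.mem_Ioc]
  exact ⟨⟨hm1, hm2⟩, hP.1, hP.2, hc⟩

/-! ### numerical facts -/

theorem nA_FA (K Bs : ℝ) (hK : 10 ≤ K) (hB : 1 ≤ Bs) : 1 / (8 * (K + 1) * Bs) ≤ 1 / 8 := by
  rw [div_le_div_iff₀ (by positivity) (by norm_num)]
  nlinarith

theorem nB_FA (Λ N : ℝ) (hΛ : 16 ≤ Λ) (hN : 0 < N) (h : 300 * Λ ≤ Real.log N) :
    Real.exp Λ + 2 ≤ N := by
  have hNexp : N = Real.exp (Real.log N) := (Real.exp_log hN).symm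
  have h1 : Real.exp (Λ + 1) ≤ N := by
    rw [hNexp]
    apply Real.exp_le_exp.mpr
    linarith
  have h2 : Real.exp (Λ + 1) = Real.exp Λ * Real.exp 1 := Real.exp_add _ _
  have h3 : 2 ≤ Real.exp 1 := by
    have := Real.add_one_le_exp (1 : ℝ)
    linarith
  have h4 : Λ + 1 ≤ Real.exp Λ := Real.add_one_le_exp Λ
  nlinarith

theorem nC_FA (C Λ t : ℝ) (hC : 1 ≤ C) (hΛ : 0 ≤ Λ ^ 5) (h : (C + 2) * Λ ^ 5 ≤ t) :
    3 * Λ ^ 5 ≤ t := by
  nlinarith

theorem nD_FA (z w : ℝ) (hz : 48 ≤ z) (hw : z ≤ w + 1) : z ≤ w * Real.exp 1 := by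
  have h3 : 2 ≤ Real.exp 1 := by
    have := Real.add_one_le_exp (1 : ℝ)
    linarith
  nlinarith

theorem nE_FA (θ l : ℝ) (hθ : θ ≤ 1 / 8) (hl : 0 < l) : θ * l ≤ l := by
  nlinarith

theorem nF_FA (l Λ : ℝ) (hΛ : 16 ≤ Λ) (hl : l ≤ Real.exp (Λ / 16)) :
    2 * l ≤ Real.exp (Λ / 8) := by
  have h1 : Real.exp (Λ / 8) = Real.exp (Λ / 16) * Real.exp (Λ / 16) := by
    rw [← Real.exp_add]
    congr 1
    ring
  have h2 : 2 ≤ Real.exp (Λ / 16) := by
    have := Real.add_one_le_exp (Λ / 16)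
    linarith
  rw [h1]
  have := Real.exp_pos (Λ / 16)
  nlinarith

theorem nG_FA (C a b t l : ℝ) (hC : 1 ≤ C) (hab : a ≤ b) (hb : 1 ≤ b) (h : (C + 2) * b ≤ t)
    (hl : t - 1 ≤ l) : C * a ≤ l := by
  have h1 : C * a ≤ C * b := mul_le_mul_of_nonneg_left hab (by linarith)
  nlinarith

theorem nH_FA (θ K Bs : ℝ) (hθ : 0 < θ) (hK : 10 ≤ K) (hKB : 50000 * Bs ≤ K) :
    θ / 100 ≤ 1 / 100 * (θ * (4 * (K + 1) / K)) - 7 / 10 * (1500 * Bs / K * θ) := by
  have e2 : 4 ≤ 4 * (K + 1) / K := by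
    rw [le_div_iff₀ (by positivity)]
    linarith
  have e3 : 1500 * Bs / K ≤ 3 / 100 := by
    rw [div_le_iff₀ (by positivity)]
    linarith
  have e4 := mul_le_mul_of_nonneg_left e2 hθ.le
  have e5 := mul_le_mul_of_nonneg_right e3 hθ.le
  linarith

/-! ### the main theorem -/

theorem hFA (hFL : StFL) (hFS : StFS) (hCM : StCM) (hNA : StNA) (hC0 : StC0) (hPT : StPT)
    (hSQ : StSQ) (hPO : StPO) (hEX : StEX) : StFA := by
  classical
  obtain ⟨Bs, ΛL, hBs, hL⟩ := hFL (1 / 1000) (by norm_num) (by norm_num)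
  obtain ⟨K₀, hK₀⟩ := hFS
  obtain ⟨CS, ΛS, hCS, hS⟩ := hSQ
  obtain ⟨ΛE, hΛE, hE⟩ := hEX
  set K : ℕ := max K₀ (max 10 ⌈50000 * Bs⌉₊) with hK
  have hKK : K₀ ≤ K := le_max_left _ _
  have hK10 : 10 ≤ K := le_trans (le_max_left _ _) (le_max_right _ _)
  have hKB : 50000 * Bs ≤ K := by
    refine le_trans (Nat.le_ceil _) ?_
    exact_mod_cast le_trans (le_max_right _ _) (le_max_right _ _)
  clear_value K
  clear hK
  have hKr : (10 : ℝ) ≤ K := by exact_mod_cast hK10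
  have hBs0 : 0 < Bs := by linarith
  obtain ⟨u, j0, Nm, hu, hj0, hj0u, hθ, hNm, hNm2, μm, μp, μ, hLo, hUp, hUj, hmain⟩ :=
    hK₀ K hKK (1 / (8 * (K + 1) * Bs)) (by positivity)
  have hur : (1 : ℝ) ≤ u := by exact_mod_cast hu
  have hj0r : (1 : ℝ) ≤ j0 := by exact_mod_cast hj0
  obtain ⟨ω, hω⟩ : ∃ ω : ℝ, ω = 1 / (4 * (K + 1) * u) := ⟨_, rfl⟩
  rw [← hω] at hθ hNm2 hLo hUp hUj
  have hω0 : 0 < ω := by rw [hω]; positivity
  have hj0K : j0 ≤ K * u := le_trans hj0u (Nat.le_mul_of_pos_left u (by omega))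
  have hmain' : 1 / 50 * ((j0 : ℝ) / (K * u)) ≤ μm - 2 / 1000 * μp - 1001 / 1000 * (7 / 10) *
    ∑ j ∈ Ico (K * u) (4 * K * u - 4 * u), gm j * (1 - (j : ℝ) * ω) * μ j := by
    have e : ∑ j ∈ Ico (K * u) (4 * K * u - 4 * u), gm j * (1 - (j : ℝ) * ω) * μ j =
        ∑ j ∈ Ico (K * u) (4 * K * u - 4 * u), gm j * (1 - (j : ℝ) / (4 * (K + 1) * u)) * μ j := by
      apply Finset.sum_congr rfl
      intro j hj
      rw [hω, mul_one_div]
    rw [e]
    exact hmain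
  obtain ⟨ε', B, hε', hB, hC⟩ := hCM K u j0 Nm ω μm μp μ (by omega) hu hj0 hj0K hω hNm hLo hUp hUj
    hmain'
  obtain ⟨θ, hθd⟩ : ∃ θ : ℝ, θ = (j0 : ℝ) * ω := ⟨_, rfl⟩
  have hθ0 : 0 < θ := by rw [hθd]; positivity
  rw [← hθd] at hθ
  have hθ8 : θ ≤ 1 / 8 := hθ.trans (nA_FA K Bs hKr hBs)
  obtain ⟨ε, hεd⟩ : ∃ ε : ℝ, ε = min ε' (ω / 8) := ⟨_, rfl⟩
  have hε0 : 0 < ε := by rw [hεd]; positivity
  have hεε' : ε ≤ ε' := by rw [hεd]; exact min_le_left _ _
  have hεω : ε ≤ ω / 8 := by rw [hεd]; exact min_le_right _ _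
  obtain ⟨C₁, ΛN, hN⟩ := hNA Bs ω ε K u j0 Nm hBs (by omega) hu hj0 hω (by rw [← hθd]; exact hθ8)
    hε0.le hεω hNm
  refine ⟨θ / 100, 7 / (8 * (K + 1)), ω, ε, 1 / 5, B, Bs,
    max C₁ (max 300 ((CS + 2) / θ)), max (max ΛL ΛS) (max (max ΛE ΛN) 16), j0, Nm,
    by positivity, by positivity, hω0, hε0, by norm_num, hB, hBs, hj0, by rw [← hθd]; linarith, ?_⟩
  intro Λ hΛ f hA hlc hf N hN1 hN2 hReg
  have hΛL : ΛL ≤ Λ := le_trans (le_trans (le_max_left _ _) (le_max_left _ _)) hΛ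
  have hΛS : ΛS ≤ Λ := le_trans (le_trans (le_max_right _ _) (le_max_left _ _)) hΛ
  have hΛE' : ΛE ≤ Λ := le_trans (le_trans (le_trans (le_max_left _ _) (le_max_left _ _))
    (le_max_right _ _)) hΛ
  have hΛN : ΛN ≤ Λ := le_trans (le_trans (le_trans (le_max_right _ _) (le_max_left _ _))
    (le_max_right _ _)) hΛ
  have hΛ16 : 16 ≤ Λ := le_trans (le_trans (le_max_right _ _) (le_max_right _ _)) hΛ
  have hΛ0 : 0 < Λ := by linarith
  have hΛ5 : 0 < Λ ^ 5 := by positivity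
  have hΛ5' : Λ ≤ Λ ^ 5 := by
    calc Λ = Λ ^ 1 := (pow_one Λ).symm
      _ ≤ Λ ^ 5 := pow_le_pow_right₀ (by linarith) (by norm_num)
  have hΛ35 : Λ ^ 3 ≤ Λ ^ 5 := pow_le_pow_right₀ (by linarith) (by norm_num)
  have hC1 : C₁ * Λ ^ 5 ≤ Real.log N :=
    le_trans (mul_le_mul_of_nonneg_right (le_max_left _ _) hΛ5.le) hN1
  have h300 : 300 * Λ ^ 5 ≤ Real.log N :=
    le_trans (mul_le_mul_of_nonneg_right (le_trans (le_max_left _ _) (le_max_right _ _)) hΛ5.le) hN1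
  have hCθ : (CS + 2) / θ * Λ ^ 5 ≤ Real.log N :=
    le_trans (mul_le_mul_of_nonneg_right (le_trans (le_max_right _ _) (le_max_right _ _)) hΛ5.le) hN1
  have hlN : 300 * Λ ≤ Real.log N := by linarith
  have hθN : (CS + 2) * Λ ^ 5 ≤ θ * Real.log N := by
    have := mul_le_mul_of_nonneg_left hCθ hθ0.le
    have e : θ * ((CS + 2) / θ * Λ ^ 5) = (CS + 2) * Λ ^ 5 := by
      field_simp
    linarith
  have hlN0 : 0 < Real.log N := by linarith
  have hN0 : (0 : ℝ) < N := by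
    by_contra h
    have h0 : (N : ℝ) = 0 := le_antisymm (not_lt.mp h) (Nat.cast_nonneg N)
    rw [h0, Real.log_zero] at hlN0
    exact lt_irrefl _ hlN0
  have hNΛ : Real.exp Λ + 2 ≤ (N : ℝ) := nB_FA Λ N hΛ16 hN0 hlN
  have hN1r : (1 : ℝ) < N := by
    have := Real.exp_pos Λ
    linarith
  have hN1' : 1 < N := by exact_mod_cast hN1r
  -- the number `w`
  obtain ⟨w, hw⟩ : ∃ w : ℕ, w = ⌈(N : ℝ) ^ ((j0 : ℝ) * ω)⌉₊ - 1 := ⟨_, rfl⟩
  rw [← hw]
  have hNθ : (N : ℝ) ^ θ = Real.exp (θ * Real.log N) := by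
    rw [Real.rpow_def_of_pos hN0, mul_comm]
  have hCΛ : 3 * Λ ^ 5 ≤ θ * Real.log N := nC_FA CS Λ _ hCS hΛ5.le hθN
  have hNθ48 : 48 ≤ (N : ℝ) ^ θ := by
    rw [hNθ]
    have := Real.add_one_le_exp (θ * Real.log N)
    linarith
  have hceil1 : ⌈(N : ℝ) ^ θ⌉₊ = w + 1 := by
    have : 0 < ⌈(N : ℝ) ^ θ⌉₊ := Nat.ceil_pos.mpr (by linarith)
    rw [← hθd] at hw
    omega
  have hw1 : (N : ℝ) ^ θ ≤ (w : ℝ) + 1 := by
    have := Nat.le_ceil ((N : ℝ) ^ θ)
    rw [hceil1] at this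
    exact_mod_cast this
  have hw2 : (w : ℝ) < (N : ℝ) ^ θ := by
    have := Nat.ceil_lt_add_one (a := (N : ℝ) ^ θ) (by linarith)
    rw [hceil1] at this
    push_cast at this
    linarith
  have hw47 : (47 : ℝ) ≤ w := by linarith
  have hw0 : (0 : ℝ) < w := by linarith
  have hwnat : 2 ≤ w := by
    have : (2 : ℝ) ≤ w := by linarith
    exact_mod_cast this
  have hlw1 : Real.log w ≤ θ * Real.log N := by
    rw [← Real.log_rpow hN0]
    exact Real.log_le_log hw0 hw2.le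
  have hlw2 : θ * Real.log N - 1 ≤ Real.log w := by
    rw [← Real.exp_le_exp, Real.exp_log hw0, Real.exp_sub, ← hNθ, div_le_iff₀ (Real.exp_pos 1)]
    exact nD_FA _ _ hNθ48 hw1
  have hlwN : Real.log w ≤ Real.log N := hlw1.trans (nE_FA θ _ hθ8 hlN0)
  have hwN8 : Real.log w ≤ Real.exp (Λ / 8) := by
    refine hlwN.trans (hN2.trans ?_)
    apply Real.exp_le_exp.mpr
    linarith
  have hdeg : (f.natDegree : ℝ) ≤ Λ := hA.degLe
  have hdeg0 : (0 : ℝ) ≤ f.natDegree := Nat.cast_nonneg _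
  have h2d : 2 * (f.natDegree : ℝ) < (N : ℝ) ^ ((j0 : ℝ) * ω) := by
    rw [← hθd, hNθ]
    have := Real.add_one_le_exp (θ * Real.log N)
    linarith
  have hRegε' : Reg ε' N ω j0 Nm (gf f) := by
    refine ⟨hReg.1, hReg.2.1, ?_⟩
    intro i hi1 hi2
    exact (hReg.2.2 i hi1 hi2).trans hεε'
  -- the sum of the densities up to `N ^ 2`
  have hEN : ∑ p ∈ (range (N ^ 2 + 1)).filter Nat.Prime, gf f p ≤ Λ ^ 2 := by
    refine (hE Λ hΛE' f hA (N ^ 2) ?_).1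
    push_cast
    rw [Real.log_pow]
    push_cast
    exact nF_FA _ Λ hΛ16 hN2
  have hVV0 : 0 ≤ VV f w := le_trans (Real.exp_pos _).le (hE Λ hΛE' f hA w hwN8).2
  obtain ⟨F0, F1, hF⟩ := hL Λ hΛL f hA w hwnat hwN8
  obtain ⟨m0, hm0, hm0'⟩ := hC0 f hf hA.deg
  have c1 := hC Λ (Bs * (Real.log w + Λ ^ 4)) (Λ ^ 2) f m0 N w F0 F1 hA hlc hm0 hNΛ hw h2d hF hEN
    hRegε'
  have c2 := hN Λ hΛN f hA hlc (fun w' h1 h2 => hL Λ hΛL f hA w' h1 h2) m0 N w hm0 hC1 hN2 hReg hw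
  -- the exceptional values
  have hvd0 : 1 / 2 ≤ vd f := by
    unfold vd
    have : (1 : ℝ) ≤ f.natDegree := by exact_mod_cast hA.deg
    rw [div_le_div_iff₀ (by norm_num) (by positivity)]
    linarith
  have hwy : w ≤ ⌊(N : ℝ) ^ vd f⌋₊ := by
    apply Nat.le_floor
    refine hw2.le.trans ?_
    apply Real.rpow_le_rpow_of_exponent_le hN1r.le
    linarith
  have hlwS : CS * Λ ^ 3 ≤ Real.log w :=
    nG_FA CS _ _ _ _ hCS hΛ35 (le_trans (by linarith) hΛ5') hθN hlw2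
  have c3 := hS Λ hΛS f hA N w ⌊(N : ℝ) ^ vd f⌋₊ hlwS hwy
  set Ex : Finset ℕ := (Ioc N (2 * N)).filter (fun m : ℕ => ∃ p : ℕ, p.Prime ∧ w < p ∧
    p ≤ ⌊(N : ℝ) ^ vd f⌋₊ ∧ ((p ^ 2 : ℕ) : ℤ) ∣ f.eval (m : ℤ)) with hEx
  have hExc : Nat.card {m : ℕ // N < m ∧ m ≤ 2 * N ∧ ∃ p : ℕ, p.Prime ∧ w < p ∧
      p ≤ ⌊(N : ℝ) ^ vd f⌋₊ ∧ ((p ^ 2 : ℕ) : ℤ) ∣ f.eval (m : ℤ)} = Ex.card := by
    apply Nat.subtype_card
    intro m
    rw [hEx, Finset.mem_filter, Finset.mem_Ioc, and_assoc]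
  rw [hExc] at c3
  have hy : ((⌊(N : ℝ) ^ vd f⌋₊ : ℕ) : ℝ) ≤ (N : ℝ) ^ vd f :=
    Nat.floor_le (Real.rpow_nonneg hN0.le _)
  have hx1 : ((K : ℝ) - 1) / (K + 1) ≤ 1 := by
    rw [div_le_one (by positivity)]
    linarith
  have hvd1 : vd f ≤ 1 := by
    unfold vd
    rw [div_le_one (by positivity)]
    linarith
  have hv : (N : ℝ) ^ vd f ≤ N := by
    calc (N : ℝ) ^ vd f ≤ (N : ℝ) ^ (1 : ℝ) := Real.rpow_le_rpow_of_exponent_le hN1r.le hvd1
      _ = N := Real.rpow_one _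
  have key := abs_FA (AA f m0 N) (Nr f N (((K : ℝ) - 1) / (K + 1))) (Gd f N (1 / 5)) Ex
    (fun m => ∀ p ∈ Qf f w, ¬ p ∣ val f m) (fun m => ind N ω j0 (K * u) (val f m))
    (fun m => ∑ j ∈ Ico (K * u) (4 * K * u - 4 * u), 7 / 10 * (1 - (j : ℝ) * ω) *
        (ej N ω j (val f m) : ℝ))
    (fun p => 1 - Real.log p / Real.log N) (fun p m => p ∣ val f m) _ _
    (by
      intro m
      show ind N ω j0 (K * u) (val f m) = 0 ∨ ind N ω j0 (K * u) (val f m) = 1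
      unfold ind
      split_ifs
      · left; rfl
      · right; rfl)
    (by
      intro m
      apply Finset.sum_nonneg
      intro j hj
      rw [Finset.mem_Ico] at hj
      have hsub : 4 * u ≤ 4 * K * u := by
        have : 4 * 1 * u ≤ 4 * K * u := by gcongr; omega
        omega
      have hx : ((K : ℝ) - 1) / (K + 1) = ((4 * K * u - 4 * u : ℕ) : ℝ) * ω := by
        rw [Nat.cast_sub hsub, hω]
        push_cast
        field_simp
      have h1 : (j : ℝ) ≤ ((4 * K * u - 4 * u : ℕ) : ℝ) := by exact_mod_cast hj.2.le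
      have h2 : (j : ℝ) * ω ≤ ((4 * K * u - 4 * u : ℕ) : ℝ) * ω :=
        mul_le_mul_of_nonneg_right h1 hω0.le
      have h3 : 0 ≤ 1 - (j : ℝ) * ω := by linarith
      positivity)
    (by
      intro p hp
      unfold Nr at hp
      rw [Finset.mem_filter] at hp
      show 0 ≤ 1 - Real.log p / Real.log N
      rw [sub_nonneg, div_le_one hlN0]
      apply Real.log_le_log
      · exact_mod_cast hp.2.1.pos
      · exact hp.2.2.2.trans hv)
    (by
      refine le_trans c1 (le_of_eq ?_)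
      apply Finset.sum_congr rfl
      intro m hm
      congr)
    (by
      refine le_trans (le_of_eq ?_) c2
      apply Finset.sum_congr rfl
      intro p hp
      congr)
    (by
      intro m hm hq hI hs
      rw [Finset.mem_union]
      by_cases hex : ∃ p : ℕ, p.Prime ∧ w < p ∧ p ≤ ⌊(N : ℝ) ^ vd f⌋₊ ∧
          ((p ^ 2 : ℕ) : ℤ) ∣ f.eval (m : ℤ)
      · right
        rw [hEx, Finset.mem_filter]
        unfold AA at hm
        rw [Finset.mem_filter] at hm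
        exact ⟨hm.1, hex⟩
      · left
        refine good_FA hPT hPO Λ f hA hlc m0 N w K u j0 m ω hK10 hu hω hNΛ hlN hm0' hw hm hq hI ?_ hex
        refine lt_of_le_of_lt (le_of_eq ?_) hs
        congr)
  -- the comparison of the main terms
  set X : ℝ := (N : ℝ) / PM f * VV f w with hX
  have hX0 : 0 ≤ X := by
    rw [hX]
    positivity
  have hPM : (0 : ℝ) < PM f := by
    unfold PM
    exact_mod_cast primorial_pos _
  have m1 : θ / 100 * X ≤ (1 / 100 * ((j0 : ℝ) / (K * u)) - 7 / 10 * (1500 * Bs / K * θ)) * X := by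
    apply mul_le_mul_of_nonneg_right _ hX0
    have e1 : (j0 : ℝ) / (K * u) = θ * (4 * ((K : ℝ) + 1) / K) := by
      rw [hθd, hω]
      field_simp
    rw [e1]
    exact nH_FA θ K Bs hθ0 hKr hKB
  have m2 : Real.exp (Bs * (Real.log w + Λ ^ 4)) * (N : ℝ) ^ ((K : ℝ) / (K + 1)) *
      Real.exp (2 * Λ ^ 2) ≤ Real.exp (Bs * Λ ^ 4 + 2 * Λ ^ 2) *
        (N : ℝ) ^ (1 - 7 / (8 * ((K : ℝ) + 1))) := by
    rw [Real.rpow_def_of_pos hN0, Real.rpow_def_of_pos hN0, ← Real.exp_add, ← Real.exp_add,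
      ← Real.exp_add]
    apply Real.exp_le_exp.mpr
    have e1 : Bs * Real.log w ≤ Real.log N * (1 / (8 * ((K : ℝ) + 1))) := by
      calc Bs * Real.log w ≤ Bs * (θ * Real.log N) := mul_le_mul_of_nonneg_left hlw1 hBs0.le
        _ ≤ Bs * (1 / (8 * (K + 1) * Bs) * Real.log N) := by
            apply mul_le_mul_of_nonneg_left _ hBs0.le
            exact mul_le_mul_of_nonneg_right hθ hlN0.le
        _ = Real.log N * (1 / (8 * ((K : ℝ) + 1))) := by
            field_simp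
    have e2 : (1 : ℝ) - 7 / (8 * ((K : ℝ) + 1)) = (K : ℝ) / (K + 1) + 1 / (8 * ((K : ℝ) + 1)) := by
      field_simp
      ring
    rw [e2, mul_add]
    linarith
  have m3 : 0 ≤ N * Real.exp (2 * Bs * Λ ^ 4 - Real.log N / (4 * Λ)) := by positivity
  have m4 := mul_le_mul_of_nonneg_left m2 hB
  have m5 : (f.natDegree : ℝ) * (⌊(N : ℝ) ^ vd f⌋₊ : ℕ) ≤ f.natDegree * (N : ℝ) ^ vd f :=
    mul_le_mul_of_nonneg_left hy hdeg0
  unfold Er
  rw [← hθd] at key
  have k1 : θ / 100 * ((N : ℝ) / PM f) * VV f w = θ / 100 * X := by rw [hX]; ring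
  have k2 : 1 / 100 * ((j0 : ℝ) / (K * u)) * ((N : ℝ) / PM f) * VV f w =
      1 / 100 * ((j0 : ℝ) / (K * u)) * X := by rw [hX]; ring
  have k3 : 1500 * Bs / K * θ * ((N : ℝ) / PM f) * VV f w = 1500 * Bs / K * θ * X := by
    rw [hX]; ring
  rw [k2, k3] at key
  rw [k1]
  have m1' : θ / 100 * X ≤ 1 / 100 * ((j0 : ℝ) / (K * u)) * X -
      7 / 10 * (1500 * Bs / K * θ * X) := by
    refine m1.trans (le_of_eq ?_)
    ring
  have m4' : B * Real.exp (Bs * (Real.log w + Λ ^ 4)) * (N : ℝ) ^ ((K : ℝ) / (K + 1)) *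
      Real.exp (2 * Λ ^ 2) ≤ B * Real.exp (Bs * Λ ^ 4 + 2 * Λ ^ 2) *
        (N : ℝ) ^ (1 - 7 / (8 * ((K : ℝ) + 1))) := by
    refine le_trans (le_of_eq ?_) (m4.trans (le_of_eq ?_)) <;> ring
  linarith

end Pool.Agent.Helper90.UP
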