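import Pool.Agent.Helper9.UP.StW

/-!
# Project UP (MP_d466de), module FS: constants of the linear sieve (adapted from Helper49/TW)
-/

set_option autoImplicit false

noncomputable section

namespace Pool.Agent.Helper90.UP

open Finset Polynomial
open Pool.Agent.Helper9.UP
open Pool.Agent.Helper9.TW (gm Ax GUp GLo)

theorem gm_nonneg_FS (j : ℕ) (hj : 1 ≤ j) : 0 ≤ gm j := by
  unfold gm
  apply Real.log_nonneg
  have : (0 : ℝ) < j := by exact_mod_cast hj
  rw [le_div_iff₀ this]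
  linarith

theorem hFS (hA : StAX) (h4 : Pool.Agent.Helper9.TW.StD4) (h5 : Pool.Agent.Helper9.TW.StD5)
    (h6 : StD6) : StFS := by
  obtain ⟨K₀, hK₀⟩ := h6
  refine ⟨max K₀ 5, ?_⟩
  intro K hK θ hθ
  obtain ⟨u₀, hu₀⟩ := hK₀ K ((le_max_left _ _).trans hK)
  have hK5 : 5 ≤ K := (le_max_right _ _).trans hK
  have hK5r : (5 : ℝ) ≤ K := by exact_mod_cast hK5
  set q : ℝ := 4 * ((K : ℝ) + 1) with hq
  have hq24 : 24 ≤ q := by
    rw [hq]
    linarith
  have hq0 : 0 < q := by linarith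
  set t : ℝ := min θ (1 / q) with ht
  have ht0 : 0 < t := lt_min hθ (by positivity)
  have htθ : t ≤ θ := min_le_left _ _
  have htq : t ≤ 1 / q := min_le_right _ _
  have hqt : q * t ≤ 1 := by
    rw [le_div_iff₀ hq0] at htq
    linarith
  have ht24 : t ≤ 1 / 24 := htq.trans (one_div_le_one_div_of_le (by norm_num) hq24)
  set S : ℕ := ⌈(3 / 2 : ℝ) / t⌉₊ with hS
  have hS1 : (3 / 2 : ℝ) / t ≤ S := Nat.le_ceil _
  have hS2 : (S : ℝ) < (3 / 2 : ℝ) / t + 1 := Nat.ceil_lt_add_one (by positivity)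
  obtain ⟨g1, g2, g3⟩ := h5 S
  obtain ⟨-, g4⟩ := h4 S (12293 / 10000) (by norm_num) g1
  obtain ⟨js1, k1⟩ := g4 (1 / 1000) (by norm_num)
  obtain ⟨js2, k2⟩ := g2 (1 / 1000) (by norm_num)
  obtain ⟨js3, k3⟩ := g3 (1 / 1000) (by norm_num)
  set js : ℕ := js1 + js2 + js3 + 2 with hjs
  set u : ℕ := u₀ + ⌈(js : ℝ) / t⌉₊ with hu
  have hu1 : (js : ℝ) / t ≤ u := by
    have := Nat.le_ceil ((js : ℝ) / t)
    have h : ((⌈(js : ℝ) / t⌉₊ : ℕ) : ℝ) ≤ u := by
      exact_mod_cast Nat.le_add_left _ _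
    linarith
  have hjsu : (js : ℝ) ≤ u * t := by
    rw [div_le_iff₀ ht0] at hu1
    exact hu1
  have hjs2 : (2 : ℝ) ≤ js := by
    exact_mod_cast (by omega : 2 ≤ js)
  have hupos : (0 : ℝ) < u := by
    by_contra hcon
    push Not at hcon
    have : (u : ℝ) * t ≤ 0 := mul_nonpos_of_nonpos_of_nonneg hcon ht0.le
    linarith
  have hu1' : 1 ≤ u := by
    have : 0 < u := by exact_mod_cast hupos
    omega
  have hut0 : 0 ≤ (u : ℝ) * t := by positivity
  have hqut : (u : ℝ) * t ≤ q * u * t := by nlinarith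
  set j0 : ℕ := ⌊q * (u : ℝ) * t⌋₊ with hj0
  have hj0le : (j0 : ℝ) ≤ q * u * t := Nat.floor_le (by positivity)
  have hj0lt : q * (u : ℝ) * t < j0 + 1 := Nat.lt_floor_add_one _
  have hj0js : js ≤ j0 := by
    have h : (js : ℝ) ≤ q * u * t := by linarith
    exact Nat.le_floor h
  have hj0u : (j0 : ℝ) ≤ u := by
    have e : q * (u : ℝ) * t = u * (q * t) := by ring
    rw [e] at hj0le
    have : (u : ℝ) * (q * t) ≤ u * 1 := mul_le_mul_of_nonneg_left hqt hupos.le
    linarith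
  have hj0u' : j0 ≤ u := by exact_mod_cast hj0u
  have hω : (0 : ℝ) < 1 / (q * u) := by positivity
  have hNm : ((S * j0 : ℕ) : ℝ) * (1 / (q * u)) ≤ 2 := by
    push_cast
    have h1 : (S : ℝ) * j0 ≤ ((3 / 2 : ℝ) / t + 1) * (q * u * t) :=
      mul_le_mul hS2.le hj0le (Nat.cast_nonneg _) (by positivity)
    have h2 : ((3 / 2 : ℝ) / t + 1) * (q * u * t) = (3 / 2 + t) * (q * u) := by
      field_simp
    rw [mul_one_div, div_le_iff₀ (by positivity)]
    rw [h2] at h1
    have h3 : 0 < q * u := by positivity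
    nlinarith
  have hNS : q * u ≤ ((S * j0 : ℕ) : ℝ) := by
    have h1 : ((3 / 2 : ℝ) / t) * (q * u * t - 1) ≤ (S : ℝ) * j0 := by
      apply mul_le_mul hS1 (by linarith) _ (Nat.cast_nonneg _)
      linarith
    have h2 : ((3 / 2 : ℝ) / t) * (q * u * t - 1) = 3 / 2 * (q * u) - (3 / 2) / t := by
      field_simp
    have h3 : (3 / 2 : ℝ) / t ≤ u := by
      rw [div_le_iff₀ ht0]
      linarith
    have h4 : 24 * (u : ℝ) ≤ q * u := mul_le_mul_of_nonneg_right hq24 hupos.le
    push_cast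
    linarith
  have hNS' : 4 * (K + 1) * u ≤ S * j0 := by
    have h4' : ((4 * (K + 1) * u : ℕ) : ℝ) ≤ ((S * j0 : ℕ) : ℝ) := by
      refine le_trans (le_of_eq ?_) hNS
      push_cast
      rw [hq]
    exact_mod_cast h4'
  have hax := hA (1 / (q * u)) j0 (S * j0) hω (by omega) hNm
  obtain ⟨M, hM⟩ : ∃ M, M = K * u := ⟨_, rfl⟩
  have hMr : (M : ℝ) = K * u := by
    rw [hM]
    push_cast
    ring
  have h4M : 4 * K * u = 4 * M := by
    rw [hM]
    ring
  have h4Mr : 4 * (K : ℝ) * u = 4 * M := by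
    rw [hMr]
    ring
  have hMS : 4 * M + 4 * u ≤ S * j0 := by
    have e : 4 * (K + 1) * u = 4 * M + 4 * u := by
      rw [hM]
      ring
    rw [← e]
    exact hNS'
  have h5u : 5 * u ≤ M := by
    rw [hM]
    exact Nat.mul_le_mul_right u hK5
  have hMpos : (0 : ℝ) < M := by
    have : 0 < M := by omega
    exact_mod_cast this
  have hj0z : j0 ≤ M := by omega
  have hupd := hu₀ u (Nat.le_add_right _ _)
  obtain ⟨μm, m1, m2⟩ := k2 j0 (by omega) _ _ hax M (4 * M) hj0z (by omega) (by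
    push_cast; linarith)
  obtain ⟨μp, p1, p2⟩ := k3 j0 (by omega) _ _ hax M (4 * M) hj0z (by omega) (by
    push_cast; linarith)
  have hμ : ∀ j : ℕ, ∃ ν : ℝ, j ∈ Ico M (4 * M - 4 * u) →
      UpP (1 / (q * u)) j0 (S * j0) (4 * M - (j + 1)) M ν ∧
        ν * ((4 * M - (j + 1) : ℕ) : ℝ) ≤ 3 * j0 * (12293 / 10000 + 1 / 1000) := by
    intro j
    by_cases hj : j ∈ Ico M (4 * M - 4 * u)
    · rw [Finset.mem_Ico] at hj
      obtain ⟨ν, n1, n2⟩ := k1 j0 (by omega) _ _ hax M (4 * M - (j + 1)) hj0z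
        (by omega) (by omega) (by omega)
      exact ⟨ν, fun _ => ⟨n1, n2⟩⟩
    · exact ⟨0, fun h => absurd h hj⟩
  choose μ hμ' using hμ
  have e4 : (4 * ((K : ℝ) + 1) * (u : ℝ)) = q * u := by rw [hq]
  refine ⟨u, j0, S * j0, hu1', by omega, hj0u', ?_, hNS', ?_, μm, μp, μ, ?_, ?_, ?_, ?_⟩
  · rw [e4, mul_one_div, div_le_iff₀ (by positivity)]
    have : q * u * t ≤ θ * (q * u) := by
      rw [mul_comm θ]
      exact mul_le_mul_of_nonneg_left htθ (by positivity)
    linarith
  · rw [e4]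
    exact hNm
  · rw [e4, h4M, ← hM]
    exact m1
  · rw [e4, h4M, ← hM]
    exact p1
  · intro j hj
    rw [h4M, ← hM] at hj
    rw [e4, h4M, ← hM]
    exact (hμ' j hj).1
  rw [h4M, ← hM, e4, ← hMr]
  rw [h4M, ← hM, e4, ← hMr, h4Mr] at hupd
  set V : ℝ := (j0 : ℝ) / M with hV
  have hVpos : 0 < V := by
    have : (0 : ℝ) < j0 := by exact_mod_cast (by omega : 0 < j0)
    positivity
  have e1 : V * (9691 / 10000 - 1 / 1000) ≤ μm := by
    have := m2
    exact this
  have e2 : μp ≤ V * (10304 / 10000 + 1 / 1000) := by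
    have := p2
    exact this
  have e3 : ∑ j ∈ Ico M (4 * M - 4 * u), gm j * (1 - (j : ℝ) / (q * u)) * μ j ≤
      V * (12293 / 10000 + 1 / 1000) * (105 / 100) := by
    calc ∑ j ∈ Ico M (4 * M - 4 * u), gm j * (1 - (j : ℝ) / (q * u)) * μ j
        ≤ ∑ j ∈ Ico M (4 * M - 4 * u), (V * (12293 / 10000 + 1 / 1000)) *
          (gm j * (1 - (j : ℝ) / (q * u)) * (3 * M / (4 * M - ((j : ℝ) + 1)))) := by
          apply Finset.sum_le_sum
          intro j hj
          have hb := (hμ' j hj).2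
          rw [Finset.mem_Ico] at hj
          have hcast : ((4 * M - (j + 1) : ℕ) : ℝ) = 4 * M - ((j : ℝ) + 1) := by
            rw [Nat.cast_sub (by omega)]
            push_cast
            ring
          rw [hcast] at hb
          have hj1 : j + 1 + 3 * u ≤ 4 * M := by omega
          have hjr : (j : ℝ) + 1 + 3 * u ≤ 4 * M := by exact_mod_cast hj1
          have hD : (0 : ℝ) < 4 * M - ((j : ℝ) + 1) := by linarith
          have hg := gm_nonneg_FS j (by omega)
          have hw : 0 ≤ 1 - (j : ℝ) / (q * u) := by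
            rw [sub_nonneg, div_le_one (by positivity)]
            have : q * (u : ℝ) = 4 * M + 4 * u := by
              rw [hq, hMr]
              ring
            rw [this]
            linarith
          have hν : μ j ≤ 3 * j0 * (12293 / 10000 + 1 / 1000) / (4 * M - ((j : ℝ) + 1)) := by
            rw [le_div_iff₀ hD]
            exact hb
          have hrw : (V * (12293 / 10000 + 1 / 1000)) *
              (gm j * (1 - (j : ℝ) / (q * u)) * (3 * M / (4 * M - ((j : ℝ) + 1)))) =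
              gm j * (1 - (j : ℝ) / (q * u)) *
                (3 * j0 * (12293 / 10000 + 1 / 1000) / (4 * M - ((j : ℝ) + 1))) := by
            rw [hV]
            field_simp
          rw [hrw]
          exact mul_le_mul_of_nonneg_left hν (mul_nonneg hg hw)
      _ = V * (12293 / 10000 + 1 / 1000) *
          ∑ j ∈ Ico M (4 * M - 4 * u),
            (gm j * (1 - (j : ℝ) / (q * u)) * (3 * M / (4 * M - ((j : ℝ) + 1)))) := by
          rw [Finset.mul_sum]
      _ ≤ V * (12293 / 10000 + 1 / 1000) * (105 / 100) :=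
          mul_le_mul_of_nonneg_left hupd (by positivity)
  nlinarith

end Pool.Agent.Helper90.UP
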