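import Pool.Agent.Helper9.UP.StN

/-!
# Project UP (MP_d466de), module MT: the uniform Mertens theorem (assembly)
-/

set_option autoImplicit false

noncomputable section

namespace Pool.Agent.Helper90.UP

open Finset Polynomial NumberField Module
open Pool.Agent.Helper9.UP

section field

variable (K : Type) [Field K] [NumberField K]

theorem mem_pI (Y : ℕ) (P : Ideal (𝓞 K)) :
    P ∈ pI K Y ↔ Ideal.absNorm P ≤ Y ∧ P.IsPrime ∧ P ≠ ⊥ := by
  simp only [pI, Finset.mem_filter, Set.Finite.mem_toFinset]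
  rfl

/-- the number of prime ideals of norm `p` -/
def NN (p : ℕ) : ℕ := ((pI K p).filter (fun P => Ideal.absNorm P = p)).card

theorem fib (Y p : ℕ) (h : p ≤ Y) :
    (pI K Y).filter (fun P => Ideal.absNorm P = p) =
      (pI K p).filter (fun P => Ideal.absNorm P = p) := by
  ext P
  simp only [Finset.mem_filter, mem_pI]
  constructor
  · rintro ⟨⟨h1, h2⟩, h3⟩
    exact ⟨⟨h3.le, h2⟩, h3⟩
  · rintro ⟨⟨h1, h2⟩, h3⟩
    exact ⟨⟨h1.trans h, h2⟩, h3⟩

theorem NN_le (p : ℕ) (hp : p.Prime) : NN K p ≤ dg K := by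
  set S := (pI K p).filter (fun P => Ideal.absNorm P = p) with hS
  have h1 : ∏ P ∈ S, P ∣ Ideal.span {((p : ℕ) : 𝓞 K)} := by
    apply Finset.prod_primes_dvd
    · intro P hP
      rw [hS, Finset.mem_filter, mem_pI] at hP
      exact Ideal.prime_of_isPrime hP.1.2.2 hP.1.2.1
    · intro P hP
      rw [hS, Finset.mem_filter, mem_pI] at hP
      rw [Ideal.dvd_span_singleton]
      have h2 := Ideal.absNorm_mem P
      rw [hP.2] at h2
      exact h2
  have h2 : Ideal.absNorm (∏ P ∈ S, P) ∣ Ideal.absNorm (Ideal.span {((p : ℕ) : 𝓞 K)}) :=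
    map_dvd Ideal.absNorm h1
  rw [map_prod, Ideal.absNorm_span_natCast, RingOfIntegers.rank,
    Finset.prod_congr rfl (fun P hP => (Finset.mem_filter.1 hP).2), Finset.prod_const] at h2
  exact (Nat.pow_dvd_pow_iff_le_right hp.one_lt).1 h2

theorem Sd_eq (Y : ℕ) : Sd K Y =
    ∑ p ∈ (range (Y + 1)).filter Nat.Prime, (NN K p : ℝ) * (Real.log p / p) := by
  unfold Sd
  rw [← Finset.sum_fiberwise_of_maps_to (t := (range (Y + 1)).filter Nat.Prime)
    (g := fun P => Ideal.absNorm P)]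
  · refine Finset.sum_congr rfl fun p hp => ?_
    rw [Finset.mem_filter, Finset.mem_range] at hp
    have e : ((pI K Y).filter (fun P => (Ideal.absNorm P).Prime)).filter
        (fun P => Ideal.absNorm P = p) = (pI K p).filter (fun P => Ideal.absNorm P = p) := by
      rw [← fib K Y p (by omega)]
      ext P
      simp only [Finset.mem_filter]
      constructor
      · rintro ⟨⟨a, _⟩, c⟩
        exact ⟨a, c⟩
      · rintro ⟨a, c⟩
        exact ⟨⟨a, by rw [c]; exact hp.2⟩, c⟩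
    rw [e, Finset.sum_congr rfl (g := fun _ => Real.log p / p), Finset.sum_const, nsmul_eq_mul]
    · rfl
    · intro P hP
      unfold nm
      rw [(Finset.mem_filter.1 hP).2]
  · intro P hP
    rw [Finset.mem_filter, mem_pI] at hP
    rw [Finset.mem_filter, Finset.mem_range]
    exact ⟨by omega, hP.2⟩

theorem Sd_le_S1 (Y : ℕ) : Sd K Y ≤ S1 K Y := by
  unfold Sd S1
  apply Finset.sum_le_sum_of_subset_of_nonneg (Finset.filter_subset _ _)
  intro P _ _
  unfold nm
  exact div_nonneg (Real.log_natCast_nonneg _) (Nat.cast_nonneg _)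

theorem one_le_dg : 1 ≤ dg K := by
  unfold dg
  exact finrank_pos

/-- reciprocals of norms of primes dominate the sum over rational primes -/
theorem G_le (f : ℤ[X]) (z Δ : ℕ) (x V : ℝ) (hΔ : ∀ p : ℕ, p.Prime → ¬ p ∣ Δ → NN K p = rho f p)
    (hx : ∀ p : ℕ, p.Prime → x < Real.log p → ¬ p ∣ Δ ∧ V < p) :
    ∑ p ∈ (range (z + 1)).filter (fun p : ℕ => p.Prime ∧ x < Real.log p), gf f p ≤
      ∑ P ∈ (pI K z).filter (fun P => V < nm K P), 1 / nm K P := by
  set A := (range (z + 1)).filter (fun p : ℕ => p.Prime ∧ x < Real.log p) with hA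
  set B := (pI K z).filter (fun P => Ideal.absNorm P ∈ A) with hB
  have h1 : ∑ p ∈ A, gf f p ≤ ∑ P ∈ B, 1 / nm K P := by
    rw [← Finset.sum_fiberwise_of_maps_to (s := B) (t := A) (g := fun P => Ideal.absNorm P)]
    · refine Finset.sum_le_sum fun p hp => ?_
      have hp' := hp
      rw [hA, Finset.mem_filter, Finset.mem_range] at hp'
      obtain ⟨hpz, hpp, hpx⟩ := hp'
      have e : B.filter (fun P => Ideal.absNorm P = p) =
          (pI K p).filter (fun P => Ideal.absNorm P = p) := by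
        rw [← fib K z p (by omega)]
        ext P
        simp only [hB, Finset.mem_filter]
        constructor
        · rintro ⟨⟨a, _⟩, c⟩
          exact ⟨a, c⟩
        · rintro ⟨a, c⟩
          refine ⟨⟨a, ?_⟩, c⟩
          rw [c]
          exact hp
      rw [e, Finset.sum_congr rfl (g := fun _ => (1 : ℝ) / p), Finset.sum_const, nsmul_eq_mul]
      · have h3 : ((pI K p).filter (fun P => Ideal.absNorm P = p)).card = rho f p :=
          hΔ p hpp (hx p hpp hpx).1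
        rw [h3]
        unfold gf
        split_ifs
        · positivity
        · rw [mul_one_div]
      · intro P hP
        unfold nm
        rw [(Finset.mem_filter.1 hP).2]
    · intro P hP
      exact (Finset.mem_filter.1 hP).2
  refine h1.trans ?_
  apply Finset.sum_le_sum_of_subset_of_nonneg
  · intro P hP
    rw [hB, Finset.mem_filter] at hP
    rw [Finset.mem_filter]
    refine ⟨hP.1, ?_⟩
    have h4 := hP.2
    rw [hA, Finset.mem_filter] at h4
    exact (hx _ h4.2.1 h4.2.2).2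
  · intro P _ _
    unfold nm
    positivity

end field

theorem log_div_nonneg (p : ℕ) : 0 ≤ Real.log p / p :=
  div_nonneg (Real.log_natCast_nonneg _) (Nat.cast_nonneg _)

theorem log_div_le_one (p : ℕ) (hp : 1 ≤ p) : Real.log p / p ≤ 1 := by
  have h1 : (0 : ℝ) < p := by exact_mod_cast hp
  rw [div_le_one h1]
  have := Real.log_le_sub_one_of_pos h1
  linarith

theorem cmp (K : Type) [Field K] [NumberField K] (f : ℤ[X]) (Δ Y : ℕ) (hΔ1 : 1 ≤ Δ)
    (hd : dg K = f.natDegree)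
    (hΔ : ∀ p : ℕ, p.Prime → ¬ p ∣ Δ → NN K p = rho f p)
    (hro : ∀ p : ℕ, p.Prime → rho f p ≤ f.natDegree) (hPD : StPD) :
    |Sf f Y - Sd K Y| ≤
      (dg K : ℝ) * (2 * dg K + 1) + dg K * (3 * √(Real.log Δ)) := by
  rw [Sd_eq]
  unfold Sf
  rw [← Finset.sum_sub_distrib]
  refine (Finset.abs_sum_le_sum_abs _ _).trans ?_
  have hterm : ∀ p ∈ (range (Y + 1)).filter Nat.Prime,
      |gf f p * Real.log p - NN K p * (Real.log p / p)| ≤
        (if p ≤ 2 * dg K then (dg K : ℝ) else 0)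
          + (if p ∣ Δ then (dg K : ℝ) * (Real.log p / p) else 0) := by
    intro p hp
    have hpp : p.Prime := (Finset.mem_filter.1 hp).2
    have hl0 := log_div_nonneg p
    have hl1 := log_div_le_one p hpp.one_lt.le
    have hN : (NN K p : ℝ) ≤ dg K := by exact_mod_cast NN_le K p hpp
    have hN0 : (0 : ℝ) ≤ NN K p := Nat.cast_nonneg _
    have hD0 : (0 : ℝ) ≤ dg K := Nat.cast_nonneg _
    have hb0 : 0 ≤ (if p ∣ Δ then (dg K : ℝ) * (Real.log p / p) else 0) := by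
      split_ifs
      · exact mul_nonneg hD0 hl0
      · exact le_rfl
    by_cases h2 : p ≤ 2 * dg K
    · have hg : gf f p = 0 := by
        unfold gf
        rw [if_pos (by rw [← hd]; exact h2)]
      rw [hg, if_pos h2, zero_mul, zero_sub, abs_neg, abs_of_nonneg (mul_nonneg hN0 hl0)]
      have : (NN K p : ℝ) * (Real.log p / p) ≤ dg K * 1 := mul_le_mul hN hl1 hl0 hD0
      linarith
    · have hg : gf f p * Real.log p = rho f p * (Real.log p / p) := by
        unfold gf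
        rw [if_neg (by rw [← hd]; exact h2)]
        ring
      rw [hg, if_neg h2, zero_add]
      by_cases h3 : p ∣ Δ
      · rw [if_pos h3]
        have hr : (rho f p : ℝ) ≤ dg K := by
          rw [hd]
          exact_mod_cast hro p hpp
        have hr0 : (0 : ℝ) ≤ rho f p := Nat.cast_nonneg _
        rw [abs_le]
        have a1 := mul_nonneg hr0 hl0
        have a2 := mul_nonneg hN0 hl0
        have a3 := mul_le_mul_of_nonneg_right hr hl0
        have a4 := mul_le_mul_of_nonneg_right hN hl0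
        constructor <;> linarith
      · rw [hΔ p hpp h3, sub_self, abs_zero]
        exact hb0
  refine (Finset.sum_le_sum hterm).trans ?_
  rw [Finset.sum_add_distrib]
  apply add_le_add
  · rw [← Finset.sum_filter, Finset.sum_const, nsmul_eq_mul, mul_comm]
    have hc : (((range (Y + 1)).filter Nat.Prime).filter (fun p => p ≤ 2 * dg K)).card
        ≤ 2 * dg K + 1 := by
      rw [← Finset.card_range (2 * dg K + 1)]
      apply Finset.card_le_card
      intro p hp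
      rw [Finset.mem_filter] at hp
      rw [Finset.mem_range]
      omega
    have hc' : ((((range (Y + 1)).filter Nat.Prime).filter (fun p => p ≤ 2 * dg K)).card : ℝ)
        ≤ 2 * dg K + 1 := by exact_mod_cast hc
    exact mul_le_mul_of_nonneg_left hc' (Nat.cast_nonneg _)
  · rw [← Finset.sum_filter, ← Finset.mul_sum]
    apply mul_le_mul_of_nonneg_left _ (Nat.cast_nonneg _)
    refine le_trans ?_ (hPD Δ hΔ1)
    apply Finset.sum_le_sum_of_subset_of_nonneg
    · intro p hp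
      rw [Finset.mem_filter, Finset.mem_filter] at hp
      rw [Nat.mem_primeFactors]
      exact ⟨hp.1.2, hp.2, by omega⟩
    · intro p _ _
      exact log_div_nonneg p

theorem Sf_mono (f : ℤ[X]) {Y Y' : ℕ} (h : Y ≤ Y') : Sf f Y ≤ Sf f Y' := by
  unfold Sf
  apply Finset.sum_le_sum_of_subset_of_nonneg
  · apply Finset.filter_subset_filter
    intro p hp
    rw [Finset.mem_range] at hp ⊢
    omega
  · intro p _ _
    apply mul_nonneg _ (Real.log_natCast_nonneg _)
    unfold gf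
    split_ifs
    · exact le_rfl
    · positivity

/-! ### numbers -/

theorem num (Λ : ℝ) (h : 1000 ≤ Λ) :
    14 * Λ * (7 * Λ ^ 3 + Real.exp (Λ / 4)) ≤ Real.exp Λ ∧
    36 * Λ * Real.exp (Λ / 4) ≤ Real.exp Λ ∧
    6 * Λ ^ 2 ≤ Real.exp (Λ / 4) ∧
    2 * Real.exp (Λ / 4) + 1 ≤ Real.exp Λ := by
  have hE : Real.exp Λ = Real.exp (Λ / 4) ^ 4 := by
    rw [← Real.exp_nat_mul]
    congr 1
    push_cast
    ring
  have h1 : (Λ / 4) ^ 4 / (Nat.factorial 4 : ℝ) ≤ Real.exp (Λ / 4) :=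
    Real.pow_div_factorial_le_exp (Λ / 4) (by linarith) 4
  have h24 : (Nat.factorial 4 : ℝ) = 24 := by norm_num [Nat.factorial]
  rw [h24] at h1
  set E := Real.exp (Λ / 4) with hEdef
  have h2 : Λ ^ 4 ≤ 6144 * E := by
    have : (Λ / 4) ^ 4 / 24 = Λ ^ 4 / 6144 := by ring
    rw [this] at h1
    linarith
  have hΛ2 : 1000000 ≤ Λ ^ 2 := by nlinarith
  have hΛ3 : 1000000 * Λ ≤ Λ ^ 3 := by
    have : Λ ^ 3 = Λ ^ 2 * Λ := by ring
    rw [this]
    exact mul_le_mul_of_nonneg_right hΛ2 (by linarith)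
  have hΛ4 : 1000000 * Λ ^ 2 ≤ Λ ^ 4 := by
    have : Λ ^ 4 = Λ ^ 2 * Λ ^ 2 := by ring
    rw [this]
    exact mul_le_mul_of_nonneg_right hΛ2 (by positivity)
  have h3 : 100 * Λ ^ 2 ≤ E := by linarith
  have h4 : 36 * Λ ≤ E := by nlinarith
  have h5 : 100000000 ≤ E := by linarith
  have h6 : 1000000 * E ≤ E ^ 2 := by nlinarith
  have h7 : E ^ 2 ≤ E ^ 3 := by
    have : E ^ 3 = E ^ 2 * E := by ring
    nlinarith [sq_nonneg E]
  have h8 : 2 * E ^ 2 ≤ E ^ 4 := by
    have : E ^ 4 = E ^ 2 * E ^ 2 := by ring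
    rw [this]
    have h9 : 2 ≤ E ^ 2 := by nlinarith
    exact mul_le_mul_of_nonneg_right h9 (by positivity)
  rw [hE]
  refine ⟨?_, ?_, ?_, ?_⟩
  · have e : 14 * Λ * (7 * Λ ^ 3 + E) = 98 * Λ ^ 4 + 14 * Λ * E := by ring
    rw [e]
    have a1 : 98 * Λ ^ 4 ≤ 602112 * E := by linarith
    have a2 : 14 * Λ * E ≤ E * E := mul_le_mul_of_nonneg_right (by linarith) (by linarith)
    nlinarith
  · have a2 : 36 * Λ * E ≤ E * E := mul_le_mul_of_nonneg_right (by linarith) (by linarith)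
    nlinarith
  · nlinarith
  · nlinarith

theorem B_eq (Λ : ℝ) (d Y : ℕ) (hY : 1 ≤ Y) :
    Real.exp (3 * Λ ^ 2) ^ 2 * Real.exp Λ * (Y : ℝ) ^ (1 / (d : ℝ)) =
      Real.exp (6 * Λ ^ 2 + Λ + Real.log Y * (1 / (d : ℝ))) := by
  have hY0 : (0 : ℝ) < Y := by exact_mod_cast hY
  rw [Real.rpow_def_of_pos hY0, ← Real.exp_nat_mul, ← Real.exp_add, ← Real.exp_add]
  congr 1
  push_cast
  ring

theorem TW_eq (Λ : ℝ) : Real.exp (3 * Λ ^ 2) ^ 2 * Real.exp Λ = Real.exp (6 * Λ ^ 2 + Λ) := by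
  rw [← Real.exp_nat_mul, ← Real.exp_add]
  congr 1
  push_cast
  ring

/-- powers of `24 W` -/
theorem pow24 (Λ : ℝ) (h : 1000 ≤ Λ) (d : ℕ) (hd : (d : ℝ) ≤ Λ) :
    (24 * Real.exp Λ) ^ d ≤ Real.exp (2 * Λ ^ 2) ∧ 1 ≤ (24 * Real.exp Λ) ^ d := by
  have h24 : (24 : ℝ) ≤ Real.exp 24 := by
    have := Real.add_one_le_exp (24 : ℝ)
    linarith
  have h1 : 24 * Real.exp Λ ≤ Real.exp (24 + Λ) := by
    rw [Real.exp_add]
    exact mul_le_mul_of_nonneg_right h24 (Real.exp_pos _).le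
  have h0 : 0 ≤ 24 * Real.exp Λ := by positivity
  constructor
  · calc (24 * Real.exp Λ) ^ d ≤ (Real.exp (24 + Λ)) ^ d := pow_le_pow_left₀ h0 h1 d
      _ = Real.exp ((d : ℝ) * (24 + Λ)) := by rw [← Real.exp_nat_mul]
      _ ≤ Real.exp (2 * Λ ^ 2) := by
          apply Real.exp_le_exp.2
          have : (d : ℝ) * (24 + Λ) ≤ Λ * (24 + Λ) :=
            mul_le_mul_of_nonneg_right hd (by linarith)
          nlinarith
  · apply one_le_pow₀
    have := Real.add_one_le_exp Λ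
    linarith

theorem fourpow (Λ : ℝ) (d : ℕ) (hd : (d : ℝ) ≤ Λ) : (4 : ℝ) ^ d ≤ Real.exp (4 * Λ) := by
  have h4 : (4 : ℝ) ≤ Real.exp 4 := by
    have := Real.add_one_le_exp (4 : ℝ)
    linarith
  calc (4 : ℝ) ^ d ≤ (Real.exp 4) ^ d := pow_le_pow_left₀ (by norm_num) h4 d
    _ = Real.exp ((d : ℝ) * 4) := by rw [← Real.exp_nat_mul]
    _ ≤ Real.exp (4 * Λ) := Real.exp_le_exp.2 (by linarith)

theorem fivepow (Λ : ℝ) (h : 1000 ≤ Λ) (d : ℕ) (hd : (d : ℝ) ≤ Λ) :
    (5 * Real.exp (3 * Λ ^ 2) ^ 2) ^ d ≤ Real.exp (7 * Λ ^ 3) := by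
  have h5 : (5 : ℝ) ≤ Real.exp 5 := by
    have := Real.add_one_le_exp (5 : ℝ)
    linarith
  have h1 : 5 * Real.exp (3 * Λ ^ 2) ^ 2 ≤ Real.exp (5 + 6 * Λ ^ 2) := by
    rw [Real.exp_add, ← Real.exp_nat_mul]
    have e : ((2 : ℕ) : ℝ) * (3 * Λ ^ 2) = 6 * Λ ^ 2 := by
      push_cast
      ring
    rw [e]
    exact mul_le_mul_of_nonneg_right h5 (Real.exp_pos _).le
  calc (5 * Real.exp (3 * Λ ^ 2) ^ 2) ^ d ≤ (Real.exp (5 + 6 * Λ ^ 2)) ^ d :=
        pow_le_pow_left₀ (by positivity) h1 d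
    _ = Real.exp ((d : ℝ) * (5 + 6 * Λ ^ 2)) := by rw [← Real.exp_nat_mul]
    _ ≤ Real.exp (7 * Λ ^ 3) := by
        apply Real.exp_le_exp.2
        have h2 : (d : ℝ) * (5 + 6 * Λ ^ 2) ≤ Λ * (5 + 6 * Λ ^ 2) :=
          mul_le_mul_of_nonneg_right hd (by positivity)
        have h3 : Λ * 5 ≤ Λ ^ 3 := by
          have : Λ ^ 3 = Λ * Λ ^ 2 := by ring
          rw [this]
          apply mul_le_mul_of_nonneg_left _ (by linarith)
          nlinarith
        nlinarith

/-- The uniform Mertens theorem. -/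
theorem hMT (hKU : StKU) (hKL : StKL) (hDG : StDG) (hGF : StGF) (hGE : StGE) (hBI : StBI)
    (hPD : StPD) (hRO : StRO) : StMT := by
  obtain ⟨Λg, hGE⟩ := hGE
  obtain ⟨C, Λb, hC, hBI⟩ := hBI
  refine ⟨max 100 C, max (max Λg Λb) (max 1000 (36 * C)), ?_, ?_, ?_⟩
  · exact le_trans (by norm_num) (le_max_left _ _)
  · exact le_trans (by norm_num) ((le_max_left 1000 (36 * C)).trans (le_max_right _ _))
  intro Λ hΛ f hf
  have hΛg : Λg ≤ Λ := ((le_max_left _ _).trans (le_max_left _ _)).trans hΛ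
  have hΛb : Λb ≤ Λ := ((le_max_right _ _).trans (le_max_left _ _)).trans hΛ
  have h1000 : 1000 ≤ Λ := ((le_max_left _ _).trans (le_max_right _ _)).trans hΛ
  have h36 : 36 * C ≤ Λ := ((le_max_right _ _).trans (le_max_right _ _)).trans hΛ
  obtain ⟨K, _, _, θ, hθ, hd⟩ := hGF Λ f hf
  have hGen := hGE Λ hΛg f hf K θ hθ hd
  obtain ⟨Δ, hΔ1, hΔlog, hΔ⟩ := hBI Λ hΛb f hf K θ hθ hd
  have hd1 : 1 ≤ dg K := one_le_dg K
  have hdΛ : (dg K : ℝ) ≤ Λ := by
    rw [hd]
    exact hf.degLe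
  have hD1 : (1 : ℝ) ≤ dg K := by exact_mod_cast hd1
  obtain ⟨n1, n2, n3, n4⟩ := num Λ h1000
  have hΛ0 : 0 ≤ Λ := by linarith
  have hΛ2 : 1000 * Λ ≤ Λ ^ 2 := by nlinarith
  have hΛ3 : 1000 * Λ ^ 2 ≤ Λ ^ 3 := by
    have : Λ ^ 3 = Λ * Λ ^ 2 := by ring
    rw [this]
    exact mul_le_mul_of_nonneg_right h1000 (by positivity)
  -- comparison
  have hcmp : ∀ Y : ℕ, |Sf f Y - Sd K Y| ≤ Λ ^ 3 := by
    intro Y
    refine (cmp K f Δ Y hΔ1 hd (fun p hp hpΔ => hΔ p hp hpΔ)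
      (fun p hp => hRO Λ f hf p hp) hPD).trans ?_
    have h1 : (dg K : ℝ) * (2 * dg K + 1) ≤ Λ * (2 * Λ + 1) :=
      mul_le_mul hdΛ (by linarith) (by positivity) hΛ0
    have h2 : √(Real.log Δ) ≤ Λ ^ 2 / 6 := by
      rw [Real.sqrt_le_left (by positivity)]
      have h3 : C * Λ ^ 3 ≤ Λ / 36 * Λ ^ 3 :=
        mul_le_mul_of_nonneg_right (by linarith) (by positivity)
      have h4 : (Λ ^ 2 / 6) ^ 2 = Λ / 36 * Λ ^ 3 := by ring
      rw [h4]
      linarith
    have h5 : (dg K : ℝ) * (3 * √(Real.log Δ)) ≤ Λ * (3 * (Λ ^ 2 / 6)) :=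
      mul_le_mul hdΛ (by linarith) (by positivity) hΛ0
    have h6 : Λ * (2 * Λ + 1) = 2 * Λ ^ 2 + Λ := by ring
    have h7 : Λ * (3 * (Λ ^ 2 / 6)) = Λ ^ 3 / 2 := by ring
    linarith
  have hDS : (dg K : ℝ) * (6 * Λ ^ 2 + Λ) ≤ 7 * Λ ^ 3 := by
    have h1 : (dg K : ℝ) * (6 * Λ ^ 2 + Λ) ≤ Λ * (6 * Λ ^ 2 + Λ) :=
      mul_le_mul_of_nonneg_right hdΛ (by positivity)
    have h2 : Λ * (6 * Λ ^ 2 + Λ) = 6 * Λ ^ 3 + Λ ^ 2 := by ring
    have : 0 ≤ Λ ^ 2 := by positivity
    linarith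
  have h14 : 14 * (dg K : ℝ) ≤ Real.exp Λ := by
    have h2 : 14 * Λ * 1 ≤ 14 * Λ * (7 * Λ ^ 3 + Real.exp (Λ / 4)) := by
      apply mul_le_mul_of_nonneg_left _ (by linarith)
      have : 0 < Real.exp (Λ / 4) := Real.exp_pos _
      nlinarith
    linarith
  -- upper bound for large `Y`
  have hU : ∀ Y : ℕ, (24 * Real.exp Λ) ^ dg K ≤ (Y : ℝ) → Real.log Y ≤ Real.exp (Λ / 4) →
      Sf f Y ≤ Real.log Y + 9 * Λ ^ 3 := by
    intro Y hY hlY
    have hY1 : 1 ≤ Y := by
      have h1 := (pow24 Λ h1000 (dg K) hdΛ).2.trans hY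
      exact_mod_cast h1
    have hcond : 14 * (dg K : ℝ) ^ 2 *
        Real.log (Real.exp (3 * Λ ^ 2) ^ 2 * Real.exp Λ * (Y : ℝ) ^ (1 / (dg K : ℝ)))
          ≤ Real.exp Λ := by
      rw [B_eq Λ (dg K) Y hY1, Real.log_exp]
      have e : 14 * (dg K : ℝ) ^ 2 * (6 * Λ ^ 2 + Λ + Real.log Y * (1 / (dg K : ℝ))) =
          14 * (dg K : ℝ) * ((dg K : ℝ) * (6 * Λ ^ 2 + Λ) + Real.log Y) := by
        field_simp
      rw [e]
      refine le_trans ?_ n1
      have hl0 : 0 ≤ Real.log Y := Real.log_natCast_nonneg _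
      exact mul_le_mul (by linarith) (by linarith) (by positivity) (by linarith)
    have h1 := hKU K (Real.exp (3 * Λ ^ 2)) hGen (Real.exp Λ) Y h14 hY hcond
    rw [TW_eq, Real.log_exp] at h1
    have h2 := Sd_le_S1 K Y
    have h3 := (abs_le.1 (hcmp Y)).2
    have h4 : (1 : ℝ) ≤ Λ ^ 3 := by nlinarith
    linarith
  have hC0 : (100 : ℝ) ≤ max 100 C := le_max_left _ _
  have hC1 : C ≤ max 100 C := le_max_right _ _
  have hC3 : 100 * Λ ^ 3 ≤ max 100 C * Λ ^ 3 := mul_le_mul_of_nonneg_right hC0 (by positivity)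
  constructor
  · intro Y hY1 hlY
    have hl0 : 0 ≤ Real.log Y := Real.log_natCast_nonneg _
    by_cases hY : (24 * Real.exp Λ) ^ dg K ≤ (Y : ℝ)
    · have h1 := hU Y hY hlY
      have h2 : 0 ≤ Λ ^ 3 := by positivity
      linarith
    · push Not at hY
      obtain ⟨p1, p2⟩ := pow24 Λ h1000 (dg K) hdΛ
      set Y0 : ℕ := ⌈(24 * Real.exp Λ) ^ dg K⌉₊ with hY0
      have h1 : (24 * Real.exp Λ) ^ dg K ≤ (Y0 : ℝ) := Nat.le_ceil _
      have h2 : Y ≤ Y0 := by
        have : (Y : ℝ) ≤ Y0 := (hY.le).trans h1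
        exact_mod_cast this
      have h3 : (Y0 : ℝ) ≤ Real.exp (3 * Λ ^ 2) := by
        have h4 : (Y0 : ℝ) < (24 * Real.exp Λ) ^ dg K + 1 := Nat.ceil_lt_add_one (by positivity)
        have h5 : 2 * Real.exp (2 * Λ ^ 2) ≤ Real.exp (3 * Λ ^ 2) := by
          have e : Real.exp (3 * Λ ^ 2) = Real.exp (Λ ^ 2) * Real.exp (2 * Λ ^ 2) := by
            rw [← Real.exp_add]
            congr 1
            ring
          rw [e]
          apply mul_le_mul_of_nonneg_right _ (Real.exp_pos _).le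
          have := Real.add_one_le_exp (Λ ^ 2)
          nlinarith
        linarith
      have h4 : Real.log Y0 ≤ 3 * Λ ^ 2 := by
        have h5 : (0 : ℝ) < Y0 := lt_of_lt_of_le (by positivity) h1
        rw [← Real.log_exp (3 * Λ ^ 2)]
        exact Real.log_le_log h5 h3
      have h5 := hU Y0 h1 (by nlinarith)
      have h6 := Sf_mono f h2
      have h7 : 0 ≤ Λ ^ 3 := by positivity
      have h8 : 0 ≤ Λ ^ 2 := by positivity
      linarith
  · intro Y z G hlow hlY hz hG hG0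
    have hlow' : 100 * Λ ^ 3 ≤ Real.log Y := hC3.trans hlow
    have hΛ3p : 0 ≤ Λ ^ 3 := by positivity
    have hΛ2p : 0 ≤ Λ ^ 2 := by positivity
    have hY1 : 1 ≤ Y := by
      rcases Nat.eq_zero_or_pos Y with h | h
      · exfalso
        rw [h] at hlow'
        simp only [Nat.cast_zero, Real.log_zero] at hlow'
        nlinarith
      · exact h
    have hYp : (0 : ℝ) < Y := by exact_mod_cast hY1
    have hYexp : (Y : ℝ) = Real.exp (Real.log Y) := (Real.exp_log hYp).symm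
    obtain ⟨p1, p2⟩ := pow24 Λ h1000 (dg K) hdΛ
    set B : ℝ := Real.exp (3 * Λ ^ 2) ^ 2 * Real.exp Λ * (Y : ℝ) ^ (1 / (dg K : ℝ)) with hB
    have hBe : B = Real.exp (6 * Λ ^ 2 + Λ + Real.log Y * (1 / (dg K : ℝ))) := by
      rw [hB]
      exact B_eq Λ (dg K) Y hY1
    have hlB : (dg K : ℝ) * Real.log B = (dg K : ℝ) * (6 * Λ ^ 2 + Λ) + Real.log Y := by
      rw [hBe, Real.log_exp]
      field_simp
    have c0 : (dg K : ℝ) * Real.log B ≤ 2 * Real.log Y := by
      rw [hlB]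
      linarith
    have c1 : (24 * Real.exp Λ) ^ dg K ≤ (Y : ℝ) := by
      refine p1.trans ?_
      rw [hYexp]
      apply Real.exp_le_exp.2
      linarith
    have c2 : 4 ^ dg K * ((dg K : ℝ) * Real.log B + 1) ≤ B := by
      have a1 : (dg K : ℝ) * Real.log B + 1 ≤ Real.exp Λ := by linarith
      have a2 := fourpow Λ (dg K) hdΛ
      have a3 : 0 ≤ (dg K : ℝ) * Real.log B + 1 := by
        rw [hlB]
        have : 0 ≤ Real.log Y := Real.log_natCast_nonneg _
        positivity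
      calc 4 ^ dg K * ((dg K : ℝ) * Real.log B + 1) ≤ Real.exp (4 * Λ) * Real.exp Λ :=
            mul_le_mul a2 a1 a3 (Real.exp_pos _).le
        _ = Real.exp (5 * Λ) := by
            rw [← Real.exp_add]
            congr 1
            ring
        _ ≤ B := by
            rw [hBe]
            apply Real.exp_le_exp.2
            have : 0 ≤ Real.log Y * (1 / (dg K : ℝ)) :=
              mul_nonneg (Real.log_natCast_nonneg _) (by positivity)
            nlinarith
    have c3 : 36 * (dg K : ℝ) * Real.log Y ≤ Real.exp Λ := by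
      refine le_trans ?_ n2
      exact mul_le_mul (by linarith) hlY (Real.log_natCast_nonneg _) (by linarith)
    have c4 : (dg K : ℝ) * Real.log B * (3 * (dg K : ℝ) *
        (5 * Real.exp (3 * Λ ^ 2) ^ 2) ^ dg K * (Y : ℝ) ^ (-(1 / 4) : ℝ)) ≤ 1 := by
      have a1 : (dg K : ℝ) * Real.log B ≤ Real.exp Λ := by linarith
      have a2 : 3 * (dg K : ℝ) ≤ Real.exp Λ := by linarith
      have a3 := fivepow Λ h1000 (dg K) hdΛ
      have a4 : (Y : ℝ) ^ (-(1 / 4) : ℝ) ≤ Real.exp (-(25 * Λ ^ 3)) := by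
        rw [Real.rpow_def_of_pos hYp]
        apply Real.exp_le_exp.2
        linarith
      have a5 : 0 ≤ (Y : ℝ) ^ (-(1 / 4) : ℝ) := Real.rpow_nonneg hYp.le _
      have a6 : 0 ≤ 3 * (dg K : ℝ) * (5 * Real.exp (3 * Λ ^ 2) ^ 2) ^ dg K := by positivity
      calc (dg K : ℝ) * Real.log B * (3 * (dg K : ℝ) *
            (5 * Real.exp (3 * Λ ^ 2) ^ 2) ^ dg K * (Y : ℝ) ^ (-(1 / 4) : ℝ))
          ≤ Real.exp Λ * (Real.exp Λ * Real.exp (7 * Λ ^ 3) * Real.exp (-(25 * Λ ^ 3))) := by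
            apply mul_le_mul a1 _ (mul_nonneg a6 a5) (Real.exp_pos _).le
            apply mul_le_mul _ a4 a5 (by positivity)
            exact mul_le_mul a2 a3 (by positivity) (Real.exp_pos _).le
        _ = Real.exp (2 * Λ - 18 * Λ ^ 3) := by
            rw [← Real.exp_add, ← Real.exp_add, ← Real.exp_add]
            congr 1
            ring
        _ ≤ 1 := by
            rw [Real.exp_le_one_iff]
            nlinarith
    have hx : ∀ p : ℕ, p.Prime → max 100 C * Λ ^ 3 < Real.log p →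
        ¬ p ∣ Δ ∧ (Real.exp (3 * Λ ^ 2) ^ 2 * Real.exp Λ) ^ dg K < p := by
      intro p hp hlp
      have hp0 : (0 : ℝ) < p := by exact_mod_cast hp.pos
      constructor
      · intro hdvd
        have h1 : p ≤ Δ := Nat.le_of_dvd (by omega) hdvd
        have h2 : Real.log p ≤ Real.log Δ := Real.log_le_log hp0 (by exact_mod_cast h1)
        have h3 : C * Λ ^ 3 ≤ max 100 C * Λ ^ 3 := mul_le_mul_of_nonneg_right hC1 (by positivity)
        linarith
      · rw [TW_eq, ← Real.exp_nat_mul]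
        have h4 : (p : ℝ) = Real.exp (Real.log p) := (Real.exp_log hp0).symm
        rw [h4]
        apply Real.exp_lt_exp.2
        linarith
    have hGle := G_le K f z Δ (max 100 C * Λ ^ 3)
      ((Real.exp (3 * Λ ^ 2) ^ 2 * Real.exp Λ) ^ dg K) (fun p hp hpΔ => hΔ p hp hpΔ) hx
    rw [← hG] at hGle
    have key := hKL K (Real.exp (3 * Λ ^ 2)) hGen (Real.exp Λ) B _ Y z hB h14 c1 c2 c0 c3 c4 hz
      rfl (lt_of_lt_of_le hG0 hGle)
    have h1 := hDG K Y
    have h2 := (abs_le.1 (hcmp Y)).1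
    have hl0 : 0 ≤ Real.log Y := Real.log_natCast_nonneg _
    have h3 : 4 * Real.log Y / (∑ P ∈ (pI K z).filter
        (fun P => (Real.exp (3 * Λ ^ 2) ^ 2 * Real.exp Λ) ^ dg K < nm K P), 1 / nm K P)
        ≤ 4 * Real.log Y / G :=
      div_le_div_of_nonneg_left (by linarith) hG0 hGle
    have h4 : (dg K : ℝ) ^ 2 ≤ Λ ^ 2 := pow_le_pow_left₀ (by linarith) hdΛ 2
    nlinarith

end Pool.Agent.Helper90.UP
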